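import Pool.Agent.Helper4.MCP.GoalsA

/-!
# MCP-UNI (MP_d8224a_co): the universal label space
-/

set_option autoImplicit false

namespace Pool.Agent.Helper94.MCP

open Pool.Agent.Helper4.MCP Pool.Agent.Helper26.MCE Pool.Agent.Helper87.MC Finset

section

variable {G : Type} [AddCommGroup G] [Fintype G] {Λ : Type} [Fintype Λ]

open Classical in
lemma uni_imp_lin (D : Finset G) (e : Λ → G) (W : Λ → AddSubgroup G) (m m' : Λ → ℝ) (a b : ℝ)
    (w : G) : imp D e W (a • m + b • m') w = a * imp D e W m w + b * imp D e W m' w := by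
  unfold imp
  rw [Finset.mul_sum, Finset.mul_sum, ← Finset.sum_add_distrib]
  refine Finset.sum_congr rfl fun l _ => ?_
  by_cases h : e l + w ∈ D ∧ w ∉ W l
  · rw [if_pos h, if_pos h, if_pos h]
    simp [Pi.add_apply, Pi.smul_apply, smul_eq_mul]
  · rw [if_neg h, if_neg h, if_neg h]
    ring

open Classical in
lemma uni_imp_cont (D : Finset G) (e : Λ → G) (W : Λ → AddSubgroup G) (w : G) :
    Continuous fun m : Λ → ℝ => imp D e W m w := by
  unfold imp
  refine continuous_finsetSum _ fun l _ => ?_
  by_cases h : e l + w ∈ D ∧ w ∉ W l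
  · simp only [if_pos h]
    exact continuous_apply l
  · simp only [if_neg h]
    exact continuous_const

lemma uni_TT_lin (D : Finset G) (μ μ' : G → ℝ) (a b : ℝ) (z : G) :
    TT (a • μ + b • μ') D z = a * TT μ D z + b * TT μ' D z := by
  classical
  unfold TT
  rw [Finset.mul_sum, Finset.mul_sum, ← Finset.sum_add_distrib]
  refine Finset.sum_congr rfl fun l _ => ?_
  simp only [Pi.add_apply, Pi.smul_apply, smul_eq_mul]
  split_ifs <;> ring

lemma uni_TT_cont (D : Finset G) (z : G) : Continuous fun μ : G → ℝ => TT μ D z := by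
  classical
  unfold TT
  refine continuous_finsetSum _ fun l _ => ?_
  split_ifs
  · exact continuous_apply l
  · exact continuous_const

end

lemma uni_ite_lin {α : Type} (p : Prop) [Decidable p] (m m' : α → ℝ) (a b : ℝ) (l : α) :
    (if p then (a • m + b • m') l else 0) = a * (if p then m l else 0) +
      b * (if p then m' l else 0) := by
  by_cases h : p
  · rw [if_pos h, if_pos h, if_pos h]
    simp [Pi.add_apply, Pi.smul_apply, smul_eq_mul]
  · rw [if_neg h, if_neg h, if_neg h]
    ring

lemma uni_sum_lin {α : Type} [Fintype α] (p : α → Prop) [DecidablePred p] (m m' : α → ℝ)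
    (a b : ℝ) :
    (∑ l, if p l then (a • m + b • m') l else 0) = a * (∑ l, if p l then m l else 0) +
      b * (∑ l, if p l then m' l else 0) := by
  rw [Finset.mul_sum, Finset.mul_sum, ← Finset.sum_add_distrib]
  exact Finset.sum_congr rfl fun l _ => uni_ite_lin (p l) m m' a b l

lemma uni_sum_cont {α : Type} [Fintype α] (p : α → Prop) [DecidablePred p] :
    Continuous fun m : α → ℝ => ∑ l, if p l then m l else 0 := by
  refine continuous_finsetSum _ fun l _ => ?_
  by_cases h : p l
  · simp only [if_pos h]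
    exact continuous_apply l
  · simp only [if_neg h]
    exact continuous_const

/-- minimax for bilinear functions on compact convex sets in finite dimension -/
lemma uni_minimax {Λ G : Type} [Fintype Λ] [Fintype G] (X : Set (Λ → ℝ)) (Y : Set (G → ℝ))
    (cX : Convex ℝ X) (cY : Convex ℝ Y) (kX : IsCompact X) (kY : IsCompact Y)
    (nX : X.Nonempty) (nY : Y.Nonempty) (φ : (Λ → ℝ) → G → ℝ)
    (hlin : ∀ (m m' : Λ → ℝ) (a b : ℝ) (w : G), φ (a • m + b • m') w = a * φ m w + b * φ m' w)
    (hcont : ∀ w, Continuous fun m => φ m w) :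
    ∃ a ∈ X, ∃ b ∈ Y, ∀ x ∈ X, ∀ y ∈ Y, ∑ w, y w * φ a w ≤ ∑ w, b w * φ x w := by
  have h := Sion.exists_isSaddlePointOn (X := X) (Y := Y)
    (f := fun m μ => ∑ w, μ w * φ m w) nX cX kX ?_ ?_ cY nY kY ?_ ?_
  · obtain ⟨a, ha, b, hb, hab⟩ := h
    exact ⟨a, ha, b, hb, hab⟩
  · intro y _
    refine Continuous.lowerSemicontinuous ?_ |>.lowerSemicontinuousOn _
    exact continuous_finsetSum _ fun w _ => continuous_const.mul (hcont w)
  · intro y _
    refine ConvexOn.quasiconvexOn ⟨cX, ?_⟩
    intro x _ x' _ a b _ _ _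
    refine le_of_eq ?_
    simp only [smul_eq_mul]
    rw [Finset.mul_sum, Finset.mul_sum, ← Finset.sum_add_distrib]
    refine Finset.sum_congr rfl fun w _ => ?_
    rw [hlin]
    ring
  · intro x _
    refine Continuous.upperSemicontinuous ?_ |>.upperSemicontinuousOn _
    exact continuous_finsetSum _ fun w _ => (continuous_apply w).mul continuous_const
  · intro x _
    refine ConcaveOn.quasiconcaveOn ⟨cY, ?_⟩
    intro y _ y' _ a b _ _ _
    refine le_of_eq ?_
    simp only [smul_eq_mul, Pi.add_apply, Pi.smul_apply]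
    rw [Finset.mul_sum, Finset.mul_sum, ← Finset.sum_add_distrib]
    refine Finset.sum_congr rfl fun w _ => ?_
    ring

theorem goalUNI (h1 : G_NC) : G_UNI := by
  intro G _ _ D J Q hQ hcard hJD hJne
  classical
  haveI : Finite (AddSubgroup G) := inferInstance
  let Λ := {p : G × AddSubgroup G // p.1 ∈ J ∧ ∀ h ∈ p.2, p.1 + h ∈ D}
  haveI : Finite Λ := inferInstance
  letI : Fintype Λ := Fintype.ofFinite Λ
  let e : Λ → G := fun l => l.1.1
  let W : Λ → AddSubgroup G := fun l => l.1.2
  have hJpos : (0:ℝ) < J.card := by exact_mod_cast Finset.card_pos.mpr hJne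
  have hJ1 : (1:ℝ) ≤ J.card := by exact_mod_cast Finset.card_pos.mpr hJne
  set ε : ℝ := 1 / (Q : ℝ) ^ 160 with hε
  -- the two convex sets
  let X : Set (Λ → ℝ) := {m | (∀ l, 0 ≤ m l) ∧
    ∀ x ∈ J, (∑ l, if e l = x then m l else 0) = 1 / (J.card : ℝ)}
  let Y : Set (G → ℝ) := {μ | Law D J ε μ}
  have hsys : ∀ m ∈ X, Sys D J e W m := fun m hm =>
    { pos := hm.1
      mem := fun l => l.2.1
      coset := fun l => l.2.2
      marg := hm.2 }
  -- the measure of a choice of subgroups
  have hchoice : ∀ V : G → AddSubgroup G, (∀ x ∈ J, ∀ h ∈ V x, x + h ∈ D) →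
      (fun l : Λ => if W l = V (e l) then 1 / (J.card : ℝ) else 0) ∈ X := by
    intro V hV
    refine ⟨fun l => ?_, fun x hx => ?_⟩
    · dsimp only
      split_ifs
      · positivity
      · exact le_refl _
    · let l0 : Λ := ⟨(x, V x), hx, hV x hx⟩
      rw [Finset.sum_eq_single l0]
      · simp only [e, W, l0, if_true]
      · intro l _ hl
        by_cases h : e l = x
        · rw [if_pos h]
          refine if_neg ?_
          intro h2
          apply hl
          apply Subtype.ext
          refine Prod.ext h ?_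
          change W l = V x
          rw [h2, h]
        · rw [if_neg h]
      · intro h
        exact absurd (Finset.mem_univ _) h
  have hXne : X.Nonempty := ⟨_, hchoice (fun _ => ⊥) (by
    intro x hx h hh
    rw [AddSubgroup.mem_bot] at hh
    rw [hh, add_zero]
    exact hJD hx)⟩
  by_cases hY : Y.Nonempty
  · -- compactness
    have cX : Convex ℝ X := by
      intro m hm m' hm' a b ha hb hab
      refine ⟨fun l => ?_, fun x hx => ?_⟩
      · simp only [Pi.add_apply, Pi.smul_apply, smul_eq_mul]
        exact add_nonneg (mul_nonneg ha (hm.1 l)) (mul_nonneg hb (hm'.1 l))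
      · rw [uni_sum_lin, hm.2 x hx, hm'.2 x hx, ← add_mul, hab, one_mul]
    have cY : Convex ℝ Y := by
      intro μ hμ μ' hμ' a b ha hb hab
      refine ⟨fun w => ?_, ?_, fun z hz => ?_, fun x hx => ?_⟩
      · simp only [Pi.add_apply, Pi.smul_apply, smul_eq_mul]
        exact add_nonneg (mul_nonneg ha (hμ.pos w)) (mul_nonneg hb (hμ'.pos w))
      · simp only [Pi.add_apply, Pi.smul_apply, smul_eq_mul]
        rw [Finset.sum_add_distrib, ← Finset.mul_sum, ← Finset.mul_sum, hμ.sum, hμ'.sum]
        linarith
      · rw [uni_TT_lin]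
        have e1 := mul_le_mul_of_nonneg_left (hμ.closed z hz) ha
        have e2 := mul_le_mul_of_nonneg_left (hμ'.closed z hz) hb
        have e3 : a * ε + b * ε = ε := by rw [← add_mul, hab, one_mul]
        linarith
      · rw [uni_sum_lin]
        have e1 := mul_le_mul_of_nonneg_left (hμ.leak x hx) ha
        have e2 := mul_le_mul_of_nonneg_left (hμ'.leak x hx) hb
        have e3 : a * ε + b * ε = ε := by rw [← add_mul, hab, one_mul]
        linarith
    have kX : IsCompact X := by
      have hsub : X ⊆ Set.Icc (0 : Λ → ℝ) 1 := by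
        intro m hm
        refine ⟨fun l => hm.1 l, fun l => ?_⟩
        have h := hm.2 (e l) l.2.1
        have h2 : m l ≤ ∑ l', if e l' = e l then m l' else 0 := by
          have h3 := Finset.single_le_sum (s := Finset.univ)
            (f := fun l' => if e l' = e l then m l' else 0) (fun l' _ => by
              by_cases hc : e l' = e l
              · rw [if_pos hc]
                exact hm.1 l'
              · rw [if_neg hc]) (Finset.mem_univ l)
          simpa using h3
        rw [h] at h2
        have h4 : 1 / (J.card : ℝ) ≤ 1 := by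
          rw [div_le_one hJpos]; exact hJ1
        exact h2.trans h4
      refine isCompact_Icc.of_isClosed_subset ?_ hsub
      have e1 : X = (⋂ l, {m : Λ → ℝ | 0 ≤ m l}) ∩ ⋂ x ∈ J,
          {m : Λ → ℝ | (∑ l, if e l = x then m l else 0) = 1 / (J.card : ℝ)} := by
        ext m
        simp only [X, Set.mem_setOf_eq, Set.mem_inter_iff, Set.mem_iInter]
      rw [e1]
      refine IsClosed.inter (isClosed_iInter fun l => ?_) (isClosed_biInter fun x _ => ?_)
      · exact isClosed_le continuous_const (continuous_apply l)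
      · exact isClosed_eq (uni_sum_cont _) continuous_const
    have kY : IsCompact Y := by
      have hsub : Y ⊆ Set.Icc (0 : G → ℝ) 1 := by
        intro μ hμ
        refine ⟨fun w => hμ.pos w, fun w => ?_⟩
        have h2 := Finset.single_le_sum (s := Finset.univ) (f := μ)
          (fun w _ => hμ.pos w) (Finset.mem_univ w)
        rw [hμ.sum] at h2
        exact h2
      refine isCompact_Icc.of_isClosed_subset ?_ hsub
      have e1 : Y = ((⋂ w, {μ : G → ℝ | 0 ≤ μ w}) ∩ {μ : G → ℝ | ∑ w, μ w = 1}) ∩
          ((⋂ z ∈ {z | z ∉ D}, {μ : G → ℝ | TT μ D z ≤ ε}) ∩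
          ⋂ x ∈ J, {μ : G → ℝ | (∑ w : G, if x + w ∈ D ∧ x + w ∉ J then μ w else 0) ≤ ε}) := by
        ext μ
        simp only [Y, Set.mem_setOf_eq, Set.mem_inter_iff, Set.mem_iInter]
        exact ⟨fun h => ⟨⟨h.pos, h.sum⟩, h.closed, h.leak⟩,
          fun h => ⟨h.1.1, h.1.2, h.2.1, h.2.2⟩⟩
      rw [e1]
      refine IsClosed.inter (IsClosed.inter (isClosed_iInter fun w => ?_) ?_)
        (IsClosed.inter (isClosed_biInter fun z _ => ?_) (isClosed_biInter fun x _ => ?_))
      · exact isClosed_le continuous_const (continuous_apply w)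
      · exact isClosed_eq (continuous_finsetSum _ fun w _ => continuous_apply w) continuous_const
      · exact isClosed_le (uni_TT_cont D z) continuous_const
      · exact isClosed_le (uni_sum_cont _) continuous_const
    obtain ⟨m0, hm0, μ0, hμ0, hsad⟩ := uni_minimax X Y cX cY kX kY hXne hY
      (fun m w => imp D e W m w) (fun m m' a b w => uni_imp_lin D e W m m' a b w)
      (fun w => uni_imp_cont D e W w)
    refine ⟨Λ, inferInstance, e, W, m0, hsys m0 hm0, fun μ hμ => ?_⟩
    obtain ⟨V, hV, hVs⟩ := h1 G D J μ0 Q hQ hcard hJD hμ0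
    refine (hsad _ (hchoice V hV) μ hμ).trans ?_
    have hw : ∀ w : G, imp D e W
        (fun l : Λ => if W l = V (e l) then 1 / (J.card : ℝ) else 0) w =
        ∑ x ∈ J, (if x + w ∈ D ∧ w ∉ V x then 1 / (J.card : ℝ) else 0) := by
      intro w
      unfold imp
      symm
      rw [← Finset.sum_attach J]
      refine Finset.sum_of_injOn (fun x : J => (⟨(x.1, V x.1), x.2, hV x.1 x.2⟩ : Λ))
        ?_ ?_ ?_ ?_
      · intro x _ x' _ hxx
        have h3 := congrArg (fun l : Λ => l.1.1) hxx
        exact Subtype.ext h3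
      · intro x _
        exact Finset.mem_coe.mpr (Finset.mem_univ _)
      · intro l _ hl
        by_cases hc : e l + w ∈ D ∧ w ∉ W l
        · rw [if_pos hc]
          refine if_neg ?_
          intro h2
          apply hl
          refine ⟨⟨e l, l.2.1⟩, Finset.mem_coe.mpr (Finset.mem_attach _ _), ?_⟩
          apply Subtype.ext
          exact Prod.ext rfl h2.symm
        · rw [if_neg hc]
      · intro x _
        simp only [e, W, if_true]
    have key : ∑ w, μ0 w * imp D e W
        (fun l : Λ => if W l = V (e l) then 1 / (J.card : ℝ) else 0) w =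
        1 / (J.card : ℝ) * ∑ x ∈ J, ∑ w : G, (if x + w ∈ D ∧ w ∉ V x then μ0 w else 0) := by
      rw [Finset.sum_comm, Finset.mul_sum]
      refine Finset.sum_congr rfl fun w _ => ?_
      rw [hw w, Finset.mul_sum, Finset.mul_sum]
      refine Finset.sum_congr rfl fun x _ => ?_
      by_cases hc : x + w ∈ D ∧ w ∉ V x
      · rw [if_pos hc, if_pos hc]
        ring
      · rw [if_neg hc, if_neg hc]
        ring
    rw [key]
    have := mul_le_mul_of_nonneg_left hVs (by positivity : (0:ℝ) ≤ 1 / (J.card : ℝ))
    refine this.trans (le_of_eq ?_)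
    field_simp
  · obtain ⟨m, hm⟩ := hXne
    exact ⟨Λ, inferInstance, e, W, m, hsys m hm, fun μ hμ => absurd ⟨μ, hμ⟩ hY⟩

end Pool.Agent.Helper94.MCP
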